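import Pool.Agent.KK.StmtsB

/-! MP_747bc0_co, squad KK, row B_NBR (the types next to a missing type are nearly complete). -/

namespace Pool.Agent.KK.B.H87

open Function
open scoped Classical

variable {k : ℕ} {V : Type} [Fintype V]

/-- the type without the coordinate `i` -/
noncomputable def sty (X : V → Prop) (i : Fin k) (e : Fin k → V) : ℕ :=
  (Finset.univ.filter (fun l : Fin k => l ≠ i ∧ X (e l))).card

theorem sty_update (X : V → Prop) (i : Fin k) (e : Fin k → V) (q : V) :
    sty X i (update e i q) = sty X i e := by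
  unfold sty
  congr 1
  ext l
  simp only [Finset.mem_filter, Finset.mem_univ, true_and]
  refine and_congr_right fun hl => ?_
  rw [update_of_ne hl]

theorem typ_pos (X : V → Prop) (i : Fin k) (e : Fin k → V) (h : X (e i)) :
    typ X e = sty X i e + 1 := by
  unfold typ sty
  have h1 : Finset.univ.filter (fun l : Fin k => X (e l)) =
      insert i (Finset.univ.filter (fun l : Fin k => l ≠ i ∧ X (e l))) := by
    ext l
    simp only [Finset.mem_filter, Finset.mem_univ, true_and, Finset.mem_insert]
    constructor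
    · intro hl
      by_cases hli : l = i
      · exact Or.inl hli
      · exact Or.inr ⟨hli, hl⟩
    · rintro (hl | hl)
      · subst hl; exact h
      · exact hl.2
  rw [h1, Finset.card_insert_of_notMem (by simp)]

theorem typ_neg (X : V → Prop) (i : Fin k) (e : Fin k → V) (h : ¬ X (e i)) :
    typ X e = sty X i e := by
  unfold typ sty
  congr 1
  ext l
  simp only [Finset.mem_filter, Finset.mem_univ, true_and]
  constructor
  · intro hl
    refine ⟨fun hli => ?_, hl⟩
    subst hli
    exact h hl
  · exact fun hl => hl.2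

/-- the core estimate on the lines of direction `i` -/
theorem core [Nonempty V] (E : (Fin k → V) → Prop) (hE : Deg E) (Z : V → Prop) (ν : ℝ) (hν : 0 < ν)
    (hZ : |dens Z - 1 / 2| ≤ ν) (i : Fin k) (T : (Fin k → V) → Prop)
    (hT : ∀ a q, T (update a i q) ↔ T a)
    (h : dens (fun e => T e ∧ ¬ Z (e i) ∧ E e) ≤ ν) :
    dens (fun e => T e ∧ Z (e i) ∧ ¬ E e) ≤ 2 * Real.sqrt ν + ν := by
  have hs : 0 < Real.sqrt ν := Real.sqrt_pos.2 hν
  have hss : Real.sqrt ν * Real.sqrt ν = ν := Real.mul_self_sqrt hν.le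
  set Q : (Fin k → V) → V → Prop := fun a q => T a ∧ ¬ Z q ∧ E (update a i q) with hQ
  have h1 : dens (fun x : (Fin k → V) × V => Q x.1 x.2) ≤ ν := by
    have h2 := dens_update i (fun e => T e ∧ ¬ Z (e i) ∧ E e)
    refine le_trans (le_of_eq ?_) h
    rw [← h2]
    refine dens_congr fun x => ?_
    simp only [hQ]
    rw [hT, update_self]
  have h3 : dens (fun a => Real.sqrt ν < dens (Q a)) ≤ Real.sqrt ν := by
    have h4 := markov Q (Real.sqrt ν)
    by_contra hc
    push Not at hc
    nlinarith
  have h5 := dens_update i (fun e => T e ∧ Z (e i) ∧ ¬ E e)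
  rw [← h5]
  have h6 : dens (fun x : (Fin k → V) × V => T (update x.1 i x.2) ∧ Z (update x.1 i x.2 i) ∧
      ¬ E (update x.1 i x.2)) ≤
      dens (fun x : (Fin k → V) × V => (Real.sqrt ν < dens (Q x.1)) ∨
        (¬ (Real.sqrt ν < dens (Q x.1)) ∧ T x.1 ∧ Z x.2 ∧ ¬ E (update x.1 i x.2))) := by
    refine dens_mono fun x hx => ?_
    rw [hT, update_self] at hx
    by_cases hb : Real.sqrt ν < dens (Q x.1)
    · exact Or.inl hb
    · exact Or.inr ⟨hb, hx⟩
  refine h6.trans ((dens_or_le _ _).trans ?_)
  have h7 : dens (fun x : (Fin k → V) × V => Real.sqrt ν < dens (Q x.1)) ≤ Real.sqrt ν := by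
    rw [dens_fst (fun a => Real.sqrt ν < dens (Q a))]
    exact h3
  have h8 : dens (fun x : (Fin k → V) × V =>
      ¬ (Real.sqrt ν < dens (Q x.1)) ∧ T x.1 ∧ Z x.2 ∧ ¬ E (update x.1 i x.2)) ≤
      ν + Real.sqrt ν := by
    refine dens_prod_le (Q := fun (a : Fin k → V) (q : V) =>
      ¬ (Real.sqrt ν < dens (Q a)) ∧ T a ∧ Z q ∧ ¬ E (update a i q)) (by positivity) fun a => ?_
    by_cases hb : Real.sqrt ν < dens (Q a)
    · refine (dens_mono (Q := fun _ => False) fun q hq => hq.1 hb).trans ?_
      rw [dens_false]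
      positivity
    · by_cases ha : T a
      · push Not at hb
        have e1 : dens (fun q => E (update a i q) ∧ ¬ Z q) ≤ Real.sqrt ν := by
          refine (dens_mono fun q hq => ?_).trans hb
          exact ⟨ha, hq.2, hq.1⟩
        have e2 := dens_split (fun q => E (update a i q)) Z
        have e3 := dens_split Z (fun q => E (update a i q))
        have e4 : dens (fun q => Z q ∧ E (update a i q)) = dens (fun q => E (update a i q) ∧ Z q) :=
          dens_congr fun q => and_comm
        have e5 := hE a i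
        rw [abs_le] at hZ
        have e6 : dens (fun q => ¬ (Real.sqrt ν < dens (Q a)) ∧ T a ∧ Z q ∧ ¬ E (update a i q)) ≤
            dens (fun q => Z q ∧ ¬ E (update a i q)) := dens_mono fun q hq => hq.2.2
        refine e6.trans ?_
        linarith [hZ.2]
      · refine (dens_mono (Q := fun _ => False) fun q hq => ha hq.2.1).trans ?_
        rw [dens_false]
        positivity
  linarith

theorem core3 [Nonempty V] (E : (Fin k → V) → Prop) (hE : Deg E) (Z : V → Prop) (ν : ℝ) (hν : 0 < ν)
    (hν1 : ν ≤ 1) (hZ : |dens Z - 1 / 2| ≤ ν) (i : Fin k) (T : (Fin k → V) → Prop)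
    (hT : ∀ a q, T (update a i q) ↔ T a)
    (h : dens (fun e => T e ∧ ¬ Z (e i) ∧ E e) ≤ ν) :
    dens (fun e => T e ∧ Z (e i) ∧ ¬ E e) ≤ 3 * Real.sqrt ν := by
  have h1 := core E hE Z ν hν hZ i T hT h
  have h2 : ν ≤ Real.sqrt ν := by
    have hs : 0 ≤ Real.sqrt ν := Real.sqrt_nonneg _
    have hss : Real.sqrt ν * Real.sqrt ν = ν := Real.mul_self_sqrt hν.le
    have h3 : Real.sqrt ν ≤ 1 := Real.sqrt_le_one.2 hν1
    nlinarith
  linarith

theorem union_bd (P : Fin k → (Fin k → V) → Prop) (R : (Fin k → V) → Prop) (c : ℝ)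
    (hR : ∀ e, R e → ∃ i, P i e) (hP : ∀ i, dens (P i) ≤ c) : dens R ≤ (k : ℝ) * c := by
  refine (dens_mono hR).trans ((dens_exists_le P).trans ?_)
  calc ∑ i, dens (P i) ≤ ∑ _i : Fin k, c := Finset.sum_le_sum fun i _ => hP i
    _ = (k : ℝ) * c := by
      rw [Finset.sum_const, nsmul_eq_mul, Finset.card_univ, Fintype.card_fin]

theorem nbr : NbrStmt := by
  intro k V _ _ E X j ν hk hE hν hX ht
  have hk1 : (1 : ℝ) ≤ k := by exact_mod_cast hk
  by_cases hν1 : ν ≤ 1
  · constructor
    · have h := union_bd (fun i e => sty X i e = j ∧ X (e i) ∧ ¬ E e)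
        (fun e => typ X e = j + 1 ∧ ¬ E e) (3 * Real.sqrt ν) ?_ ?_
      · calc dens (fun e => typ X e = j + 1 ∧ ¬ E e) ≤ (k : ℝ) * (3 * Real.sqrt ν) := h
          _ = 3 * (k : ℝ) * Real.sqrt ν := by ring
      · rintro e ⟨he, hne⟩
        have h1 : 0 < typ X e := by omega
        unfold typ at h1
        obtain ⟨i, hi⟩ := Finset.card_pos.1 h1
        rw [Finset.mem_filter] at hi
        have h2 := typ_pos X i e hi.2
        exact ⟨i, by omega, hi.2, hne⟩
      · intro i
        refine core3 E hE X ν hν hν1 hX i (fun e => sty X i e = j)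
          (fun a q => by simp only [sty_update]) ?_
        refine le_trans (dens_mono fun e he => ?_) ht
        exact ⟨he.2.2, (typ_neg X i e he.2.1).trans he.1⟩
    · intro hj1 hjk
      have hX' : |dens (fun v => ¬ X v) - 1 / 2| ≤ ν := by
        rw [dens_not]
        rw [abs_le] at hX ⊢
        constructor <;> linarith [hX.1, hX.2]
      have h := union_bd (fun i e => sty X i e = j - 1 ∧ ¬ X (e i) ∧ ¬ E e)
        (fun e => typ X e = j - 1 ∧ ¬ E e) (3 * Real.sqrt ν) ?_ ?_
      · calc dens (fun e => typ X e = j - 1 ∧ ¬ E e) ≤ (k : ℝ) * (3 * Real.sqrt ν) := h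
          _ = 3 * (k : ℝ) * Real.sqrt ν := by ring
      · rintro e ⟨he, hne⟩
        have h1 : ∃ i, ¬ X (e i) := by
          by_contra hc
          push Not at hc
          have h2 : typ X e = k := by
            unfold typ
            rw [Finset.filter_true_of_mem (fun l _ => hc l), Finset.card_univ, Fintype.card_fin]
          omega
        obtain ⟨i, hi⟩ := h1
        exact ⟨i, (typ_neg X i e hi).symm.trans he, hi, hne⟩
      · intro i
        refine core3 E hE (fun v => ¬ X v) ν hν hν1 hX' i (fun e => sty X i e = j - 1)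
          (fun a q => by simp only [sty_update]) ?_
        refine le_trans (dens_mono fun e he => ?_) ht
        have h3 : X (e i) := not_not.1 he.2.1
        refine ⟨he.2.2, ?_⟩
        rw [typ_pos X i e h3, he.1]
        omega
  · push Not at hν1
    have h1 : 1 ≤ Real.sqrt ν := by
      rw [Real.one_le_sqrt]
      exact hν1.le
    have h2 : (1 : ℝ) ≤ 3 * (k : ℝ) * Real.sqrt ν := by nlinarith
    exact ⟨(dens_le_one _).trans h2, fun _ _ => (dens_le_one _).trans h2⟩

end Pool.Agent.KK.B.H87
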